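import Pool.Agent.Q10.KZD

/-!
# The abcd inequality for almost all rational parameters of a split curve over a number field

`K` is a number field and `x ↦ (P 0 (x) : ... : P (n-1) (x))` a rational curve of degree `D` in the
hyperplane `Z_1 + ... + Z_n = 0` over `K`, which meets the coordinate hyperplanes in `q` points of
the projective line, all of them `K`-rational, but not necessarily rational. We order the rational
numbers `x` by the height of the point and show that the inequality `h ≤ M rad + c` holds for
almost all of them if `M > D / (2 S₁)`, whatever the constant `c`; for example for all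
`M = 1 + ε` if `D ≤ 2 S₁`.
-/

set_option autoImplicit false

namespace Pool.Agent.Results.MP_7475bd_nt.AlmostAllOnCurves

open NumberField IsDedekindDomain Polynomial

/-- the absolute logarithmic height (the height of Mathlib is relative to `K`) -/
noncomputable def height {K : Type} [Field K] [NumberField K] {n : ℕ} (z : Fin n → K) : ℝ :=
  Height.logHeight z / (Module.finrank ℚ K : ℝ)

/-- the radical: the sum of `log N(v) / [K : ℚ]` over the primes `v` at which the `v`-adic absolute
values of the coordinates are not all equal -/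
noncomputable def rad {K : Type} [Field K] [NumberField K] {n : ℕ} (z : Fin n → K) : ℝ :=
  (∑ᶠ v ∈ {v : HeightOneSpectrum (𝓞 K) | ∃ i j, FinitePlace.mk v (z i) ≠ FinitePlace.mk v (z j)},
    Real.log (Ideal.absNorm v.asIdeal : ℝ)) / (Module.finrank ℚ K : ℝ)

open Classical in
/-- the points of the projective line (`none` is infinity) at which the curve
`x ↦ (P 0 (x) : ... : P (n-1) (x))` meets the coordinate hyperplanes -/
noncomputable def zeros {K : Type} [Field K] {n : ℕ} (P : Fin n → K[X]) : Finset (Option K) :=
  ((∏ i, P i).roots.toFinset).image some ∪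
    if ∃ i j, (P i).natDegree < (P j).natDegree then {none} else ∅

/-- the degree over `ℚ` of a point of the projective line -/
noncomputable def degree {K : Type} [Field K] [NumberField K] (a : Option K) : ℕ :=
  a.elim 1 fun r => (minpoly ℚ r).natDegree

/-- the number of the rational points among the zeros -/
noncomputable def rationalZeros {K : Type} [Field K] [NumberField K] {n : ℕ}
    (P : Fin n → K[X]) : ℕ := ((zeros P).filter fun a => degree a = 1).card

/-- the sum of `1 / degree` over the zeros of degree at least two, plus half the number of the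
rational zeros if there are at least two of them -/
noncomputable def S₁ {K : Type} [Field K] [NumberField K] {n : ℕ} (P : Fin n → K[X]) : ℝ :=
  ∑ a ∈ (zeros P).filter (fun a => 2 ≤ degree a), 1 / (degree a : ℝ) +
    if 2 ≤ rationalZeros P then (rationalZeros P : ℝ) / 2 else 0

/-- the rational numbers `x` for which all coordinates of the point
`(P 0 (x) : ... : P (n-1) (x))` are different from zero and its height is at most `T` -/
def AllUpTo {K : Type} [Field K] [NumberField K] {n : ℕ} (P : Fin n → K[X]) (T : ℝ) : Set ℚ :=
  {x : ℚ | (∀ i, (P i).eval (x : K) ≠ 0) ∧ height (fun i => (P i).eval (x : K)) ≤ T}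

/-- those among them for which the point violates `h ≤ M rad + c` -/
def Violations {K : Type} [Field K] [NumberField K] {n : ℕ} (P : Fin n → K[X]) (M c T : ℝ) :
    Set ℚ :=
  {x : ℚ | x ∈ AllUpTo P T ∧
    M * rad (fun i => (P i).eval (x : K)) + c < height (fun i => (P i).eval (x : K))}

section
variable {K : Type} [Field K] [NumberField K] {n : ℕ} {P : Fin n → K[X]}

open Pool.Agent.Q10.KY Pool.Agent.Q10.KZ

omit [NumberField K] in
theorem zeros_eq : zeros P = pts P := by
  classical
  unfold zeros pts rts Unequal
  congr!

theorem degree_eq : (degree : Option K → ℕ) = dgr := rfl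

theorem rationalZeros_eq : rationalZeros P = (rat P).card := by
  classical
  unfold rationalZeros rat
  rw [zeros_eq, degree_eq]

theorem S₁_eq : S₁ P = S1 P := by
  classical
  unfold S₁ S1
  rw [rationalZeros_eq, zeros_eq, degree_eq]

theorem allUpTo_eq (T : ℝ) : AllUpTo P T = AllP P T := rfl

theorem violations_eq (M c T : ℝ) : Violations P M c T = VioP P M c T := rfl

end

open Pool.Agent.Q10.KY Pool.Agent.Q10.KZ in
/-- **Theorem.** Let `K` be a number field and `x ↦ (P 0 (x) : ... : P (n-1) (x))` a curve of degree
`D ≥ 1` in the hyperplane `Z_1 + ... + Z_n = 0`, given by nonzero polynomials over `K` without a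
common zero, all of whose zeros are in `K`, and let `q` be the number of the points of the
projective line which are mapped to the coordinate hyperplanes. Consider the rational numbers `x`
for which the coordinates of the point are different from zero.

(0) `2 S₁ = q` if the `q` points have degree at most two over `ℚ` (for example if `[K : ℚ] ≤ 2`) and
not exactly one of them is rational.

(1) For all `M, δ > 0` and all `c` at most `C exp ((1 / (S₁ M) + δ) T)` of the `x` with
`h(P(x)) ≤ T` violate `h(P(x)) ≤ M rad(P(x)) + c`.

(2) For every `δ > 0` and all large `T` there are at least `exp ((2 / D - δ) T)` numbers `x` with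
`h(P(x)) ≤ T`.

(3) If `M > D / (2 S₁)`, then for every `c` the number in (1) is at most `exp (-ν T)` times the
number in (2), for some `ν > 0` and all large `T`. -/
theorem result (K : Type) [Field K] [NumberField K] (n : ℕ) (P : Fin n → K[X])
    (hP : ∀ i, P i ≠ 0) (_hsum : ∑ i, P i = 0) (hu : ∃ u : Fin n → K[X], ∑ i, u i * P i = 1)
    (hs : ∀ i, (P i).Splits)
    (D : ℕ) (hD : 1 ≤ D) (hdeg : ∀ i, (P i).natDegree ≤ D) (hdeg' : ∃ i, (P i).natDegree = D)
    (q : ℕ) (hq : (zeros P).card = q) :
    ((∀ a ∈ zeros P, degree a ≤ 2) → rationalZeros P ≠ 1 → 2 * S₁ P = q) ∧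
    (∀ M c δ : ℝ, 0 < M → 0 < δ → ∃ C : ℝ, ∀ T : ℝ, 0 ≤ T →
      ((Violations P M c T).ncard : ℝ) ≤ C * Real.exp ((1 / (S₁ P * M) + δ) * T)) ∧
    (∀ δ : ℝ, 0 < δ → ∃ T₀ : ℝ, ∀ T : ℝ, T₀ ≤ T →
      Real.exp ((2 / (D : ℝ) - δ) * T) ≤ ((AllUpTo P T).ncard : ℝ)) ∧
    (∀ M c : ℝ, (D : ℝ) / (2 * S₁ P) < M → ∃ ν : ℝ, 0 < ν ∧ ∃ T₀ : ℝ, ∀ T : ℝ, T₀ ≤ T →
      ((Violations P M c T).ncard : ℝ) ≤ Real.exp (-ν * T) * ((AllUpTo P T).ncard : ℝ)) := by
  classical
  obtain ⟨v1, v2, v3⟩ := param_viol hP hs hu hD hdeg hdeg'
  rw [zeros_eq] at hq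
  simp only [allUpTo_eq, violations_eq, S₁_eq, zeros_eq, degree_eq, rationalZeros_eq]
  refine ⟨?_, ?_, v2, v3⟩
  · intro h2 h1
    rw [S1_two h2 h1, hq]
    ring
  · intro M c δ hM hδ
    obtain ⟨C, -, h⟩ := v1 M c δ hM hδ
    exact ⟨C, h⟩

end Pool.Agent.Results.MP_7475bd_nt.AlmostAllOnCurves
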