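import Pool.Agent.Q38.NG.Off2

/-!
# The `n`-term abc inequality over `ℚ`: the exact order of the number of violations

For `n ≥ 4`, `1/n < M < 1/(n-1)` and every real `c` we determine how many rational points of the
hyperplane `z_1 + ⋯ + z_n = 0` violate `h(P) < M rad(P) + c`: outside every proper Zariski closed
subset there are `X ^ (1/M - 1 + o(1))` with `h(P) ≤ log X`, and `X ^ (1 - M + o(1))` with
`rad(P) ≤ log X` and `h(P) < L rad(P)`, `L ≤ (1 - M)/(n - 2)`.
-/

set_option autoImplicit false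

namespace Pool.Agent.Results.MP_7475bd_nt.ExactCountOfExceptions

open Finset Filter Topology

/-- `h(P) = log max |z_i|` for a point `P` with coprime integer coordinates `z` -/
noncomputable def h {n : ℕ} (z : Fin n → ℤ) : ℝ :=
  Real.log ((univ.sup fun j => (z j).natAbs : ℕ) : ℝ)

open scoped Classical in
/-- `rad(P)`: the sum of `log p` over the primes `p` for which the `ord_p (z_i)` are not all
equal (for nonzero integers `z_i` such a prime divides one of them) -/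
noncomputable def rad {n : ℕ} (z : Fin n → ℤ) : ℝ :=
  ∑ p ∈ (∏ i, z i).natAbs.primeFactors.filter
    (fun p => ∃ i j, padicValInt p (z i) ≠ padicValInt p (z j)), Real.log p

/-- the points over `ℚ` of the hyperplane `z_1 + ... + z_n = 0` without a vanishing subsum over a
non-empty proper set of indices (in particular with nonzero coordinates); every point is given by
its two vectors of coprime integer coordinates -/
def Points (n : ℕ) : Set (Fin n → ℤ) :=
  {z | univ.gcd z = 1 ∧ ∑ i, z i = 0 ∧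
    ∀ I : Finset (Fin n), I.Nonempty → I ≠ univ → ∑ i ∈ I, z i ≠ 0}

/-- the polynomial `F` does not vanish at every rational point of the hyperplane -/
def NotZeroOnH {n : ℕ} (F : MvPolynomial (Fin n) ℚ) : Prop :=
  ∃ w : Fin n → ℚ, ∑ i, w i = 0 ∧ MvPolynomial.eval w F ≠ 0

/-- the members of `s` outside the zero set of `F` -/
def Off {n : ℕ} (F : MvPolynomial (Fin n) ℚ) (s : Set (Fin n → ℤ)) : Set (Fin n → ℤ) :=
  {z ∈ s | MvPolynomial.eval (fun i => (z i : ℚ)) F ≠ 0}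

/-- the points of height at most `log X` which violate `h < M rad + c` -/
def Violations (n : ℕ) (M c X : ℝ) : Set (Fin n → ℤ) :=
  {z ∈ Points n | h z ≤ Real.log X ∧ M * rad z + c ≤ h z}

/-- the points with `rad ≤ log X` and `M rad + c ≤ h < L rad` -/
def Between (n : ℕ) (M L c X : ℝ) : Set (Fin n → ℤ) :=
  {z ∈ Points n | rad z ≤ Real.log X ∧ M * rad z + c ≤ h z ∧ h z < L * rad z}

open Pool.Agent.Q38.NG Pool.Agent.Q38.AE.Cov
open Pool.Agent.Q38.NC (lh lr ht RX RX_pos le_ht)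

theorem mem_iff {n : ℕ} (hn : 4 ≤ n) (x : Fin n → ℤ) : x ∈ Points n ↔ AdG x := by
  constructor
  · rintro ⟨h1, h2, h3⟩
    refine ⟨fun i => ?_, fun p hp => ?_, h2, h3⟩
    · have h4 := h3 {i} (Finset.singleton_nonempty i) (by
        intro h
        have h5 := congrArg Finset.card h
        rw [Finset.card_singleton, Finset.card_univ, Fintype.card_fin] at h5
        omega)
      rwa [Finset.sum_singleton] at h4
    · by_contra hcon
      push Not at hcon
      have h4 : (p : ℤ) ∣ Finset.univ.gcd x := Finset.dvd_gcd fun i _ => hcon i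
      rw [h1] at h4
      have h5 : p ∣ 1 := by exact_mod_cast h4
      exact hp.one_lt.ne' (Nat.dvd_one.1 h5)
  · intro h
    refine ⟨?_, h.sum, h.nv⟩
    have h0 : (Finset.univ.gcd x).natAbs = 1 := by
      by_contra hne
      obtain ⟨p, hp, hpd⟩ := Nat.exists_prime_and_dvd hne
      obtain ⟨i, hi⟩ := h.cop p hp
      exact hi ((Int.natCast_dvd.2 hpd).trans (Finset.gcd_dvd (Finset.mem_univ i)))
    have h1 : normalize (Finset.univ.gcd x) = Finset.univ.gcd x := Finset.normalize_gcd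
    rw [← h1, ← Int.abs_eq_normalize, Int.abs_eq_natAbs, h0]
    rfl

theorem rad_eq {n : ℕ} {z : Fin n → ℤ} (hz : AdG z) : rad z = lr z := by
  classical
  have e2 : (∏ i, z i).natAbs.primeFactors.filter
      (fun p => ∃ i j, padicValInt p (z i) ≠ padicValInt p (z j)) =
      (∏ i, z i).natAbs.primeFactors := by
    apply Finset.filter_true_of_mem
    intro p hp
    rw [Nat.mem_primeFactors] at hp
    obtain ⟨hp, hpd, -⟩ := hp
    have e1 : (∏ i, z i).natAbs = ∏ i, (z i).natAbs := by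
      rw [← Int.natAbsHom_apply, map_prod]; rfl
    rw [e1] at hpd
    obtain ⟨i, -, hi⟩ := (Nat.Prime.prime hp).exists_mem_finset_dvd hpd
    obtain ⟨j, hj⟩ := hz.cop p hp
    refine ⟨i, j, ?_⟩
    have : Fact p.Prime := ⟨hp⟩
    have h3 : padicValInt p (z j) = 0 := padicValInt.eq_zero_of_not_dvd hj
    have h4 : 1 ≤ padicValInt p (z i) := by
      unfold padicValInt
      exact one_le_padicValNat_of_dvd (Int.natAbs_ne_zero.2 (hz.ne i)) hi
    omega
  unfold rad lr RX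
  rw [Nat.cast_prod, Real.log_prod]
  · exact Finset.sum_congr (by convert e2) fun _ _ => rfl
  · intro p hp
    exact_mod_cast (Nat.prime_of_mem_primeFactors hp).pos.ne'

theorem exp_le_iff {a X : ℝ} (hX : 0 < X) : Real.exp a ≤ X ↔ a ≤ Real.log X :=
  (Real.le_log_iff_exp_le hX).symm

theorem vio_eq {n : ℕ} (hn : 4 ≤ n) (F : MvPolynomial (Fin n) ℚ) (M c : ℝ) {X : ℝ} (hX : 0 < X) :
    Off F (Violations n M c X) =
      Zc (fun x => AdG x ∧ MvPolynomial.eval (fun i => (x i : ℚ)) F ≠ 0) M c X := by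
  ext x
  constructor
  · rintro ⟨⟨h1, h2, h3⟩, h4⟩
    have h1' := (mem_iff hn x).1 h1
    rw [rad_eq h1'] at h3
    exact ⟨⟨h1', h4⟩, (exp_le_iff hX).2 h2, h3⟩
  · rintro ⟨⟨h1, h4⟩, h2, h3⟩
    rw [← rad_eq h1] at h3
    exact ⟨⟨(mem_iff hn x).2 h1, (exp_le_iff hX).1 h2, h3⟩, h4⟩

theorem bet_eq {n : ℕ} (hn : 4 ≤ n) (F : MvPolynomial (Fin n) ℚ) (M L c : ℝ) {X : ℝ}
    (hX : 0 < X) : Off F (Between n M L c X) =
      Fc (fun x => AdG x ∧ MvPolynomial.eval (fun i => (x i : ℚ)) F ≠ 0) M L c X := by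
  ext x
  constructor
  · rintro ⟨⟨h1, h2, h3, h5⟩, h4⟩
    have h1' := (mem_iff hn x).1 h1
    rw [rad_eq h1'] at h2 h3 h5
    exact ⟨⟨h1', h4⟩, (exp_le_iff hX).2 h2, h3, h5⟩
  · rintro ⟨⟨h1, h4⟩, h2, h3, h5⟩
    have h2' := (exp_le_iff hX).1 h2
    rw [← rad_eq h1] at h2' h3 h5
    exact ⟨⟨(mem_iff hn x).2 h1, h2', h3, h5⟩, h4⟩

/-- elimination of the last coordinate -/
theorem elim {m : ℕ} (F : MvPolynomial (Fin (m + 2)) ℚ) (hF : NotZeroOnH F) :
    ∃ G : MvPolynomial (Fin (m + 1)) ℚ, G ≠ 0 ∧ ∀ z : Fin (m + 2) → ℚ, ∑ i, z i = 0 →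
      MvPolynomial.eval (fun j : Fin (m + 1) => z j.castSucc) G = MvPolynomial.eval z F := by
  obtain ⟨w, hw, hF⟩ := hF
  obtain ⟨f, hf⟩ : ∃ f : Fin (m + 2) → MvPolynomial (Fin (m + 1)) ℚ, f =
    Fin.snoc (α := fun _ => MvPolynomial (Fin (m + 1)) ℚ) (fun j => MvPolynomial.X j)
      (-∑ j, MvPolynomial.X j) := ⟨_, rfl⟩
  have key : ∀ z : Fin (m + 2) → ℚ, ∑ i, z i = 0 →
      MvPolynomial.eval (fun j : Fin (m + 1) => z j.castSucc) (MvPolynomial.bind₁ f F) =
        MvPolynomial.eval z F := by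
    intro z hz
    have h1 := MvPolynomial.eval₂Hom_bind₁ (RingHom.id ℚ)
      (fun j : Fin (m + 1) => z j.castSucc) f F
    have h2 : (fun i => (MvPolynomial.eval₂Hom (RingHom.id ℚ)
        (fun j : Fin (m + 1) => z j.castSucc)) (f i)) = z := by
      funext i
      refine Fin.lastCases ?_ (fun j => ?_) i
      · rw [hf, Fin.snoc_last, map_neg, map_sum]
        simp only [MvPolynomial.eval₂Hom_X']
        rw [Fin.sum_univ_castSucc] at hz
        linarith
      · rw [hf, Fin.snoc_castSucc]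
        simp only [MvPolynomial.eval₂Hom_X']
    rw [h2] at h1
    exact h1
  refine ⟨MvPolynomial.bind₁ f F, ?_, key⟩
  intro h0
  apply hF
  rw [← key w hw, h0, map_zero]

theorem few_F {n : ℕ} (hn : 4 ≤ n) (F : MvPolynomial (Fin n) ℚ) (hF : NotZeroOnH F) :
    Few (fun x : Fin n → ℤ => MvPolynomial.eval (fun i => (x i : ℚ)) F ≠ 0) := by
  classical
  obtain ⟨m, rfl⟩ : ∃ m, n = m + 2 := ⟨n - 2, by omega⟩
  obtain ⟨G, hG, hGF⟩ := elim F hF
  refine ⟨G.totalDegree * 3 ^ m, by positivity, fun B hB T hT => ?_⟩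
  have hB0 : 0 < B := by linarith
  have hinj : Set.InjOn (fun (x : Fin (m + 2) → ℤ) (j : Fin (m + 1)) => x j.castSucc)
      (T : Set _) := by
    intro x hx y hy hxy
    have h1 := (hT x (mem_coe.1 hx)).1.sum
    have h2 := (hT y (mem_coe.1 hy)).1.sum
    rw [Fin.sum_univ_castSucc] at h1 h2
    have h3 : ∀ j : Fin (m + 1), x j.castSucc = y j.castSucc := fun j => congrFun hxy j
    funext i
    refine Fin.lastCases ?_ (fun j => h3 j) i
    rw [sum_congr rfl fun j _ => h3 j] at h1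
    linarith
  have h1 := few_zeros G hG ⌊B⌋₊ (T.image fun x (j : Fin (m + 1)) => x j.castSucc) (by
    intro z hz
    obtain ⟨x, hx, rfl⟩ := mem_image.1 hz
    obtain ⟨k1, k2, k3⟩ := hT x hx
    refine ⟨fun i => Nat.le_floor (le_trans (by exact_mod_cast le_ht x _) k3), ?_⟩
    rw [hGF (fun i => (x i : ℚ)) (by exact_mod_cast k1.sum)]
    exact not_not.1 k2)
  rw [card_image_of_injOn hinj] at h1
  have h2 : (2 * (⌊B⌋₊ : ℝ) + 1) ≤ 3 * B := by
    have := Nat.floor_le hB0.le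
    linarith
  have e : (((m + 2 : ℕ) : ℝ) - 2) = m := by push_cast; ring
  rw [e, Real.rpow_natCast]
  calc (T.card : ℝ) ≤ ((G.totalDegree * (2 * ⌊B⌋₊ + 1) ^ m : ℕ) : ℝ) := by exact_mod_cast h1
    _ = G.totalDegree * (2 * (⌊B⌋₊ : ℝ) + 1) ^ m := by push_cast; ring
    _ ≤ G.totalDegree * (3 * B) ^ m :=
        mul_le_mul_of_nonneg_left (pow_le_pow_left₀ (by positivity) h2 m) (Nat.cast_nonneg _)
    _ = _ := by rw [mul_pow]; ring

theorem off_one {n : ℕ} (s : Set (Fin n → ℤ)) : Off (1 : MvPolynomial (Fin n) ℚ) s = s := by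
  ext x
  constructor
  · exact fun hx => hx.1
  · intro hx
    refine ⟨hx, ?_⟩
    rw [map_one]
    exact one_ne_zero

/-- Let `n ≥ 4`, `c` real and `F` a polynomial which does not vanish on the hyperplane.
(1) For `1/n < M < 1/(n-1)` the number of the points `P` with `h(P) ≤ log X`, `F(P) ≠ 0` which
violate `h(P) < M rad(P) + c` is `X ^ (1/M - 1 + o(1))` for `X → ∞`.
(2) For all `M > 1/n` and `ε > 0` the number of all points with `h(P) ≤ log X` which violate
`h(P) < M rad(P) + c` is at most `C X ^ (max (n - 2) (1/M - 1) + ε)`.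
(3) For `1/n < M < 1/(n-1)`, `M < L ≤ (1 - M)/(n - 2)` the number of the points with
`rad(P) ≤ log X`, `M rad(P) + c ≤ h(P) < L rad(P)` and `F(P) ≠ 0` is finite for `X ≥ 1` and equal
to `X ^ (1 - M + o(1))` for `X → ∞`. -/
theorem result (n : ℕ) (hn : 4 ≤ n) (c : ℝ) (F : MvPolynomial (Fin n) ℚ) (hF : NotZeroOnH F) :
    (∀ M : ℝ, 1 / (n : ℝ) < M → M < 1 / ((n : ℝ) - 1) →
      Tendsto (fun X : ℝ => Real.log ((Off F (Violations n M c X)).ncard : ℝ) / Real.log X) atTop
        (𝓝 (1 / M - 1))) ∧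
    (∀ M : ℝ, 1 / (n : ℝ) < M → ∀ ε : ℝ, 0 < ε → ∃ C : ℝ, ∀ X : ℝ, 1 ≤ X →
      (Violations n M c X).Finite ∧
      ((Violations n M c X).ncard : ℝ) ≤ C * X ^ (max ((n : ℝ) - 2) (1 / M - 1) + ε)) ∧
    (∀ M L : ℝ, 1 / (n : ℝ) < M → M < 1 / ((n : ℝ) - 1) → M < L → L ≤ (1 - M) / ((n : ℝ) - 2) →
      (∀ X : ℝ, 1 ≤ X → (Between n M L c X).Finite) ∧
      Tendsto (fun X : ℝ => Real.log ((Off F (Between n M L c X)).ncard : ℝ) / Real.log X) atTop
        (𝓝 (1 - M))) := by
  have hQ := few_F hn F hF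
  refine ⟨fun M h1 h2 => ?_, fun M h1 ε hε => ?_, fun M L h1 h2 h3 h4 => ⟨?_, ?_⟩⟩
  · obtain ⟨hM0, -, -, h4⟩ := inv_facts hn h1 h2
    refine tendsto_exponent (fun ε hε => ?_) fun ε hε => ?_
    · obtain ⟨C, hC, hup⟩ := Zc_up (P := fun x : Fin n → ℤ => AdG x ∧
        MvPolynomial.eval (fun i => (x i : ℚ)) F ≠ 0) hn (fun _ h => h.1) h1 c ε hε
      refine ⟨C, hC, fun X hX => ?_⟩
      rw [vio_eq hn F M c (by linarith)]
      have e : max ((n : ℝ) - 2) (1 / M - 1) = 1 / M - 1 := max_eq_right (by linarith)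
      rw [e] at hup
      exact (hup X hX).2
    · obtain ⟨X₀, hX₀⟩ := Zc_low hn hQ h1 h2 c ε hε
      refine ⟨max X₀ 1, fun X hX => ?_⟩
      have hX1 : 1 ≤ X := (le_max_right _ _).trans hX
      rw [vio_eq hn F M c (by linarith)]
      exact hX₀ X ((le_max_left _ _).trans hX)
  · obtain ⟨C, -, hup⟩ := Zc_up (P := fun x : Fin n → ℤ => AdG x ∧
        MvPolynomial.eval (fun i => (x i : ℚ)) 1 ≠ 0) hn (fun _ h => h.1) h1 c ε hε
    refine ⟨C, fun X hX => ?_⟩
    rw [← off_one (Violations n M c X), vio_eq hn 1 M c (by linarith)]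
    exact hup X hX
  · intro X hX
    rw [← off_one (Between n M L c X), bet_eq hn 1 M L c (by linarith)]
    obtain ⟨C, -, hup⟩ := Fc_up (P := fun x : Fin n → ℤ => AdG x ∧
        MvPolynomial.eval (fun i => (x i : ℚ)) 1 ≠ 0) hn (fun _ h => h.1) h1 h2 h3 h4 c 1 one_pos
    exact (hup X hX).1
  · refine tendsto_exponent (fun ε hε => ?_) fun ε hε => ?_
    · obtain ⟨C, hC, hup⟩ := Fc_up (P := fun x : Fin n → ℤ => AdG x ∧
        MvPolynomial.eval (fun i => (x i : ℚ)) F ≠ 0) hn (fun _ h => h.1) h1 h2 h3 h4 c ε hε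
      refine ⟨C, hC, fun X hX => ?_⟩
      rw [bet_eq hn F M L c (by linarith)]
      exact (hup X hX).2
    · obtain ⟨X₀, hX₀⟩ := Fc_low hn hQ h1 h2 h3 h4 c ε hε
      refine ⟨max X₀ 1, fun X hX => ?_⟩
      have hX1 : 1 ≤ X := (le_max_right _ _).trans hX
      rw [bet_eq hn F M L c (by linarith)]
      exact hX₀ X ((le_max_left _ _).trans hX)

end Pool.Agent.Results.MP_7475bd_nt.ExactCountOfExceptions
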