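import Pool.Agent.Results.MP_7475bd_nt.ExceptionsOffClosedSubsets
import Pool.Agent.Q21.DW.Cnt

/-!
# The `n`-term abc conjecture over `ℚ`: points with a random product of radicals

`RandomReals θ G` (see `Pool.Agent.Q21.DW.Real`) says that the property `G i` of natural numbers holds, for all `i`, for
ALL numbers read off from long windows of digits of almost every real number (in every base `g`, windows of length `k` at
all positions up to `g ^ (κ k)`, `κ < 1 - θ`), with exceptional sets of Hausdorff dimension at most `(θ + η) / (1 + η)` for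
the positions up to `η k`; and for ALL `m` with `|m - α v_k| ≤ w_k`, `k` large, for all `α > 0` outside a set of
`s`-dimensional measure zero, if `∑ v_k ^ t (w_k / v_k) ^ s` converges for some `t > θ`.

Let `n ≥ 3`. With `θ = (n - 1) / n` this holds for the property of `A` and `m` that ALL points `P` over `ℚ` of the
hyperplane with nonzero coordinates for which the product of the radicals of the (coprime integer) coordinates is `m` have
height `h(P) > A log m`; no closed subset is left out. So there is no violation `h(P) ≥ M rad(P) + c` of polynomial height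
at all among these points.
-/

set_option autoImplicit false

namespace Pool.Agent.Results.MP_7475bd_nt.RandomRadicals

/-- `h(P) = log max |z_i|` for a point `P` with coprime integer coordinates `z` -/
noncomputable def h {n : ℕ} (z : Fin n → ℤ) : ℝ :=
  Real.log ((Finset.univ.sup fun j => (z j).natAbs : ℕ) : ℝ)

/-- the product of the primes that divide `a` -/
def radical (a : ℤ) : ℕ := ∏ p ∈ a.natAbs.primeFactors, p

/-- the coprime integer coordinates of a point over `ℚ` of the hyperplane `z_1 + ... + z_n = 0` with nonzero coordinates -/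
def IsPoint {n : ℕ} (z : Fin n → ℤ) : Prop :=
  Finset.univ.gcd z = 1 ∧ ∑ i, z i = 0 ∧ ∀ i, z i ≠ 0

lemma logRad_eq (a : ℤ) : ExceptionsOffClosedSubsets.logRad a = Real.log (radical a) := by
  unfold ExceptionsOffClosedSubsets.logRad radical
  rw [Nat.cast_prod, Real.log_prod]
  intro p hp
  exact_mod_cast (Nat.prime_of_mem_primeFactors hp).ne_zero

lemma radical_pos (a : ℤ) : 0 < radical a :=
  Finset.prod_pos fun p hp => (Nat.prime_of_mem_primeFactors hp).pos

/-- **Theorem.** Let `n ≥ 3`. For all random `m` (`RandomReals`) with the exponent `(n - 1) / n` and all `A`, all points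
`P` over `ℚ` of the hyperplane `z_1 + ... + z_n = 0` with nonzero coordinates (`z` the coprime integer coordinates) and
`∏ rad (z_i) = m` have height `h(P) > A log m`. -/
theorem result (n : ℕ) (hn : 3 ≤ n) :
    Pool.Agent.Q21.DW.RandomReals (((n : ℝ) - 1) / n) (fun (A m : ℕ) =>
      ∀ z : Fin n → ℤ, IsPoint z → ∏ i, radical (z i) = m → (A : ℝ) * Real.log m < h z) := by
  have hn' : (3 : ℝ) ≤ n := by exact_mod_cast hn
  have hn0 : (0 : ℝ) < n := by linarith
  refine Pool.Agent.Q21.DW.randomReals_of (B := fun (A m : ℕ) => ∃ z : Fin n → ℤ, IsPoint z ∧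
    ∏ i, radical (z i) = m ∧ h z ≤ (A : ℝ) * Real.log m) (div_nonneg (by linarith) hn0.le)
    (by rw [div_lt_one hn0]; linarith) (fun A => ?_) ?_
  · have hA1 : (1 : ℝ) / n < (A : ℝ) + 1 := by
      have h1 : (1 : ℝ) / n < 1 := by
        rw [div_lt_one hn0]
        linarith
      have h2 : (0 : ℝ) ≤ A := Nat.cast_nonneg A
      linarith
    obtain ⟨hfin, ⟨⟨C, hC⟩, -⟩, -⟩ := ExceptionsOffClosedSubsets.result n hn ((A : ℝ) + 1) hA1
    refine Pool.Agent.Q21.DW.ps_of (T := Fin n → ℤ) (fun X => ExceptionsOffClosedSubsets.Points n ((A : ℝ) + 1) X)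
      (fun z => ∏ i, radical (z i)) _ _ ?_ ?_
    · intro ε hε
      refine ⟨|C|, fun X hX => ⟨hfin X, ?_⟩⟩
      have hX1 : (1 : ℝ) ≤ X := by exact_mod_cast hX
      calc ((ExceptionsOffClosedSubsets.Points n ((A : ℝ) + 1) X).ncard : ℝ)
          ≤ C * (X : ℝ) ^ (((n : ℝ) - 1) / n) := hC X hX1
        _ ≤ |C| * (X : ℝ) ^ (((n : ℝ) - 1) / n) := mul_le_mul_of_nonneg_right (le_abs_self C) (by positivity)
        _ ≤ |C| * (X : ℝ) ^ (((n : ℝ) - 1) / n + ε) :=
          mul_le_mul_of_nonneg_left (Real.rpow_le_rpow_of_exponent_le hX1 (by linarith)) (abs_nonneg C)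
    · rintro m N hm hmN ⟨z, hz, hzm, hh⟩
      have hm0 : (0 : ℝ) < m := by exact_mod_cast hm
      have hlog : Real.log m ≤ Real.log N := Real.log_le_log hm0 (by exact_mod_cast hmN)
      have hlog0 : 0 ≤ Real.log m := Real.log_natCast_nonneg m
      refine ⟨z, ⟨hz.1, hz.2.1, hz.2.2, ?_, ?_⟩, hzm⟩
      · change h z ≤ ((A : ℝ) + 1) * Real.log N
        have h2 : (0 : ℝ) ≤ A := Nat.cast_nonneg A
        nlinarith
      · have h3 : ∑ i, ExceptionsOffClosedSubsets.logRad (z i) = Real.log m := by
          rw [← hzm, Nat.cast_prod, Real.log_prod]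
          · exact Finset.sum_congr rfl fun i _ => logRad_eq (z i)
          · intro i _
            exact_mod_cast (radical_pos (z i)).ne'
        rw [h3]
        exact hlog
  · intro A m _ hB z hz hzm
    by_contra hcon
    exact hB ⟨z, hz, hzm, not_lt.1 hcon⟩

end Pool.Agent.Results.MP_7475bd_nt.RandomRadicals
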