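import Pool.Agent.Q10.KY8

/-!
# The n-term abc conjecture on split rational curves over a number field, at rational parameters

`K` is a number field and `x ↦ (P 0 (x) : ... : P (n-1) (x))` a rational curve of degree `D` in the
hyperplane `Z_1 + ... + Z_n = 0` over `K`, which meets the coordinate hyperplanes in `q` points of
the projective line, all of them `K`-rational, but not necessarily rational. We count the rational
numbers `x` for which the point has a small radical `rad ≤ log X`: all of them, whatever their
height, and those for which the height is at most a multiple of `log X`. The primes of `K` above a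
prime `p` which divide `u - v α` have together the weight `[K : ℚ(α)] log p`, if `p` divides the
value at `(u, v)` of the form of `α` and is not exceptional.
-/

set_option autoImplicit false

namespace Pool.Agent.Results.MP_7475bd_nt.RationalParameters

open NumberField IsDedekindDomain Polynomial

/-- the absolute logarithmic height (the height of Mathlib is relative to `K`) -/
noncomputable def height {K : Type} [Field K] [NumberField K] {n : ℕ} (z : Fin n → K) : ℝ :=
  Height.logHeight z / (Module.finrank ℚ K : ℝ)

/-- the radical: the sum of `log N(v) / [K : ℚ]` over the primes `v` at which the `v`-adic absolute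
values of the coordinates are not all equal -/
noncomputable def rad {K : Type} [Field K] [NumberField K] {n : ℕ} (z : Fin n → K) : ℝ :=
  (∑ᶠ v ∈ {v : HeightOneSpectrum (𝓞 K) | ∃ i j, FinitePlace.mk v (z i) ≠ FinitePlace.mk v (z j)},
    Real.log (Ideal.absNorm v.asIdeal : ℝ)) / (Module.finrank ℚ K : ℝ)

open Classical in
/-- the points of the projective line (`none` is infinity) at which the curve
`x ↦ (P 0 (x) : ... : P (n-1) (x))` meets the coordinate hyperplanes -/
noncomputable def zeros {K : Type} [Field K] {n : ℕ} (P : Fin n → K[X]) : Finset (Option K) :=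
  ((∏ i, P i).roots.toFinset).image some ∪
    if ∃ i j, (P i).natDegree < (P j).natDegree then {none} else ∅

/-- the degree over `ℚ` of a point of the projective line -/
noncomputable def degree {K : Type} [Field K] [NumberField K] (a : Option K) : ℕ :=
  a.elim 1 fun r => (minpoly ℚ r).natDegree

/-- the number of the rational points among the zeros -/
noncomputable def rationalZeros {K : Type} [Field K] [NumberField K] {n : ℕ}
    (P : Fin n → K[X]) : ℕ := ((zeros P).filter fun a => degree a = 1).card

/-- the sum of `1 / degree` over the zeros of degree at least two, plus half the number of the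
rational zeros if there are at least two of them -/
noncomputable def S₁ {K : Type} [Field K] [NumberField K] {n : ℕ} (P : Fin n → K[X]) : ℝ :=
  ∑ a ∈ (zeros P).filter (fun a => 2 ≤ degree a), 1 / (degree a : ℝ) +
    if 2 ≤ rationalZeros P then (rationalZeros P : ℝ) / 2 else 0

/-- the sum of `1 / degree` over the zeros of degree at least three, plus half the number of the
rational zeros if there are at least three of them -/
noncomputable def S₂ {K : Type} [Field K] [NumberField K] {n : ℕ} (P : Fin n → K[X]) : ℝ :=
  ∑ a ∈ (zeros P).filter (fun a => 3 ≤ degree a), 1 / (degree a : ℝ) +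
    if 3 ≤ rationalZeros P then (rationalZeros P : ℝ) / 2 else 0

/-- the rational numbers `x`, of any height, for which all coordinates of the point
`(P 0 (x) : ... : P (n-1) (x))` are different from zero and its radical is at most `log X` -/
def Parameters {K : Type} [Field K] [NumberField K] {n : ℕ} (P : Fin n → K[X]) (X : ℝ) : Set ℚ :=
  {x : ℚ | (∀ i, (P i).eval (x : K) ≠ 0) ∧ rad (fun i => (P i).eval (x : K)) ≤ Real.log X}

/-- those for which the height of the point is at most `t` -/
def ParametersUpTo {K : Type} [Field K] [NumberField K] {n : ℕ} (P : Fin n → K[X]) (X t : ℝ) :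
    Set ℚ :=
  {x : ℚ | x ∈ Parameters P X ∧ height (fun i => (P i).eval (x : K)) ≤ t}

section
variable {K : Type} [Field K] [NumberField K] {n : ℕ} {P : Fin n → K[X]}

open Pool.Agent.Q10.KY

omit [NumberField K] in
theorem zeros_eq : zeros P = pts P := by
  classical
  unfold zeros pts rts Unequal
  congr!

theorem degree_eq : (degree : Option K → ℕ) = dgr := rfl

theorem rationalZeros_eq : rationalZeros P = (rat P).card := by
  classical
  unfold rationalZeros rat
  rw [zeros_eq, degree_eq]

theorem S₁_eq : S₁ P = S1 P := by
  classical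
  unfold S₁ S1
  rw [rationalZeros_eq, zeros_eq, degree_eq]

theorem S₂_eq : S₂ P = S2 P := by
  classical
  unfold S₂ S2
  rw [rationalZeros_eq, zeros_eq, degree_eq]

theorem parameters_eq (X : ℝ) : Parameters P X = Par P X := by
  have hn0 : (0 : ℝ) < Module.finrank ℚ K := Pool.Agent.Q10.KV.deg_pos
  ext x
  unfold Parameters Par rad
  rw [Set.mem_ofPred_eq, Set.mem_ofPred_eq, div_le_iff₀ hn0, mul_comm (Real.log X)]
  rfl

theorem parametersUpTo_eq (X t : ℝ) : ParametersUpTo P X t = ParT P X t := by
  have hn0 : (0 : ℝ) < Module.finrank ℚ K := Pool.Agent.Q10.KV.deg_pos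
  ext x
  unfold ParametersUpTo ParT height
  rw [Set.mem_ofPred_eq, Set.mem_ofPred_eq, div_le_iff₀ hn0, mul_comm t, parameters_eq]

end

open Pool.Agent.Q10.KY in
/-- **Theorem.** Let `K` be a number field and `x ↦ (P 0 (x) : ... : P (n-1) (x))` a curve of degree
`D ≥ 1` in the hyperplane `Z_1 + ... + Z_n = 0`, given by nonzero polynomials over `K` without a
common zero, all of whose zeros are in `K`, and let `q` be the number of the points of the
projective line which are mapped to the coordinate hyperplanes.

(1) For all `κ, ε > 0` there are at most `C X ^ (1 / S₁ + ε)` rational numbers `x` for which the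
point has radical at most `log X` and height at most `κ log X`.

(2) If `S₂ > 0` (some zero has degree at least three over `ℚ`, or at least three zeros are
rational), then for every `ε > 0` there are at most `C X ^ (1 / S₂ + ε)` rational numbers `x` for
which the point has radical at most `log X`, whatever its height.

(3) For large `X` at least `c X ^ (2 / q)` rational `x` give a point of radical at most `log X` and
height at most `(D / q) log X`.

(4) If all zeros have degree at most two over `ℚ` (for example if `[K : ℚ] ≤ 2`) and the number of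
the rational zeros is not one, then for all `κ ≥ D / q` the number of the rational `x` for which the
point has radical at most `log X` and height at most `κ log X` is `X ^ (2 / q + o(1))`. -/
theorem result (K : Type) [Field K] [NumberField K] (n : ℕ) (P : Fin n → K[X])
    (hP : ∀ i, P i ≠ 0) (_hsum : ∑ i, P i = 0) (hu : ∃ u : Fin n → K[X], ∑ i, u i * P i = 1)
    (hs : ∀ i, (P i).Splits)
    (D : ℕ) (hD : 1 ≤ D) (hdeg : ∀ i, (P i).natDegree ≤ D) (hdeg' : ∃ i, (P i).natDegree = D)
    (q : ℕ) (hq : (zeros P).card = q) :
    (∀ κ ε : ℝ, 0 < κ → 0 < ε → ∃ C : ℝ, ∀ X : ℝ, 1 ≤ X →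
      (ParametersUpTo P X (κ * Real.log X)).Finite ∧
      ((ParametersUpTo P X (κ * Real.log X)).ncard : ℝ) ≤ C * X ^ (1 / S₁ P + ε)) ∧
    (0 < S₂ P → ∀ ε : ℝ, 0 < ε → ∃ C : ℝ, ∀ X : ℝ, 1 ≤ X →
      (Parameters P X).Finite ∧ ((Parameters P X).ncard : ℝ) ≤ C * X ^ (1 / S₂ P + ε)) ∧
    (∃ c : ℝ, 0 < c ∧ ∃ X₀ : ℝ, ∀ X : ℝ, X₀ ≤ X →
      c * X ^ (2 / (q : ℝ)) ≤ ((ParametersUpTo P X ((D : ℝ) / q * Real.log X)).ncard : ℝ)) ∧
    ((∀ a ∈ zeros P, degree a ≤ 2) → rationalZeros P ≠ 1 → ∀ κ : ℝ, (D : ℝ) / q ≤ κ →
      ∀ δ : ℝ, 0 < δ → ∃ X₀ : ℝ, ∀ X : ℝ, X₀ ≤ X →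
        X ^ (2 / (q : ℝ) - δ) ≤ ((ParametersUpTo P X (κ * Real.log X)).ncard : ℝ) ∧
        ((ParametersUpTo P X (κ * Real.log X)).ncard : ℝ) ≤ X ^ (2 / (q : ℝ) + δ)) := by
  classical
  rw [zeros_eq] at hq
  obtain ⟨h1, h2, h3, h4⟩ := package hP hs hu hD hdeg hdeg' hq
  simp only [parametersUpTo_eq, parameters_eq, S₁_eq, S₂_eq, zeros_eq, degree_eq,
    rationalZeros_eq]
  refine ⟨?_, ?_, ?_, ?_⟩
  · intro κ ε hκ hε
    obtain ⟨C, -, h⟩ := h1 κ ε hκ hε
    exact ⟨C, h⟩
  · intro hS ε hε
    obtain ⟨C, -, h⟩ := h2 hS ε hε
    exact ⟨C, h⟩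
  · obtain ⟨c, hc, X₀, -, h⟩ := h3
    exact ⟨c, hc, X₀, fun X hX => h X hX _ le_rfl⟩
  · intro hd hr κ hκ δ hδ
    obtain ⟨X₀, -, h⟩ := h4 hd hr κ hκ δ hδ
    exact ⟨X₀, h⟩

end Pool.Agent.Results.MP_7475bd_nt.RationalParameters
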